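import Pool.Agent.H466.HE.SB
import Pool.Graph.R_seed8.TH804.DL2

/-!
# Project HE (helper466): Jensen's formula with the sharp constant
-/

set_option autoImplicit false

open Complex MeasureTheory Filter Topology Set Metric
open scoped ComplexConjugate

namespace Pool.Agent.H249.HE

open Pool.Agent.TH804.DL (JJ jensen order_pos order_zero_iff log_div_nonneg)

lemma integral_quad (a R : ℝ) :
    ∫ θ in (0 : ℝ)..(2 * Real.pi), (a + R * Real.cos θ) ^ 2 = 2 * Real.pi * (a ^ 2 + R ^ 2 / 2) := by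
  have e : ∀ θ : ℝ, (a + R * Real.cos θ) ^ 2 =
      a ^ 2 + 2 * a * R * Real.cos θ + R ^ 2 * Real.cos θ ^ 2 := by
    intro θ
    ring
  simp_rw [e]
  have h1 : IntervalIntegrable (fun _ : ℝ => a ^ 2) volume 0 (2 * Real.pi) :=
    continuous_const.intervalIntegrable _ _
  have h2 : IntervalIntegrable (fun θ : ℝ => 2 * a * R * Real.cos θ) volume 0 (2 * Real.pi) :=
    (continuous_const.mul Real.continuous_cos).intervalIntegrable _ _
  have h3 : IntervalIntegrable (fun θ : ℝ => R ^ 2 * Real.cos θ ^ 2) volume 0 (2 * Real.pi) :=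
    (continuous_const.mul (Real.continuous_cos.pow 2)).intervalIntegrable _ _
  rw [intervalIntegral.integral_add (h1.add h2) h3, intervalIntegral.integral_add h1 h2,
    intervalIntegral.integral_const, intervalIntegral.integral_const_mul,
    intervalIntegral.integral_const_mul, integral_cos, integral_cos_sq]
  simp
  ring

/-- average of `(a + Re z)²` -/
lemma avg_quad (a R : ℝ) :
    Real.circleAverage (fun z : ℂ => (a + z.re) ^ 2) 0 R = a ^ 2 + R ^ 2 / 2 := by
  unfold Real.circleAverage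
  have e : ∀ θ : ℝ, (a + (circleMap 0 R θ).re) ^ 2 = (a + R * Real.cos θ) ^ 2 := by
    intro θ
    have : (circleMap 0 R θ).re = R * Real.cos θ := by
      simp [circleMap, Complex.exp_re]
    rw [this]
  simp only [e]
  rw [integral_quad, smul_eq_mul]
  have := Real.pi_pos
  field_simp

/-- the mean of `log ‖g‖` on a circle, from a quadratic majorant -/
lemma JJ_quad {g : ℂ → ℂ} (hg : Differentiable ℂ g) {R α β a : ℝ} (hR : 0 < R)
    (hα : 0 ≤ α) (hβ : 0 ≤ β)
    (hb : ∀ z : ℂ, ‖z‖ ≤ R → ‖g z‖ ≤ Real.exp (α + β * (a + z.re) ^ 2)) :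
    JJ g R ≤ α + β * (a ^ 2 + R ^ 2 / 2) := by
  have e : α + β * (a ^ 2 + R ^ 2 / 2) =
      Real.circleAverage (fun z : ℂ => α + β * (a + z.re) ^ 2) 0 R := by
    have hi1 : CircleIntegrable (fun _ : ℂ => α) 0 R := circleIntegrable_const _ _ _
    have hi2 : CircleIntegrable (fun z : ℂ => β * (a + z.re) ^ 2) 0 R := by
      apply ContinuousOn.circleIntegrable hR.le
      fun_prop
    have h1 := Real.circleAverage_add hi1 hi2
    have h2 : Real.circleAverage (fun z : ℂ => β * (a + z.re) ^ 2) 0 R =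
        β * (a ^ 2 + R ^ 2 / 2) := by
      rw [← avg_quad]
      exact Real.circleAverage_smul (a := β) (f := fun z : ℂ => (a + z.re) ^ 2)
    rw [h2, Real.circleAverage_const] at h1
    exact h1.symm
  rw [e]
  unfold JJ
  apply Real.circleAverage_mono
  · exact MeromorphicOn.circleIntegrable_log_norm (fun z _ => (hg.analyticAt z).meromorphicAt)
  · apply ContinuousOn.circleIntegrable hR.le
    fun_prop
  · intro z hz
    have hz' : ‖z‖ ≤ R := by
      rw [abs_of_pos hR, mem_sphere_zero_iff_norm] at hz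
      exact hz.le
    have h1 := hb z hz'
    rcases eq_or_lt_of_le (norm_nonneg (g z)) with h2 | h2
    · show Real.log ‖g z‖ ≤ α + β * (a + z.re) ^ 2
      rw [← h2, Real.log_zero]
      positivity
    · have h3 := Real.log_le_log h2 h1
      rwa [Real.log_exp] at h3

/-- weighted sums over a set of zeros, from Jensen's formula with a quadratic majorant -/
lemma jen_quad {F : ℂ → ℂ} (hF : Differentiable ℂ F) {C : ℂ} {R α β b l : ℝ} (hR : 0 < R)
    (hα : 0 ≤ α) (hβ : 0 ≤ β) (hb : 0 < b)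
    (hup : ∀ z : ℂ, ‖z - C‖ ≤ R → ‖F z‖ ≤ b * Real.exp (α + β * z.re ^ 2))
    (hlow : b * Real.exp l ≤ ‖F C‖) (S : Finset ℂ) (w : ℂ → ℝ) (hS : ∀ u ∈ S, F u = 0)
    (hw : ∀ u ∈ S, ‖u - C‖ ≤ R → w u ≤ Real.log (R / ‖u - C‖))
    (hw' : ∀ u ∈ S, R < ‖u - C‖ → w u ≤ 0) :
    ∑ u ∈ S, (analyticOrderNatAt F u : ℝ) * w u ≤ α + β * (C.re ^ 2 + R ^ 2 / 2) - l := by
  classical
  have hFC : 0 < ‖F C‖ := lt_of_lt_of_le (by positivity) hlow
  have hne : F C ≠ 0 := norm_pos_iff.1 hFC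
  set g : ℂ → ℂ := fun z => F (C + z) * ((1 / b : ℝ) : ℂ) with hg
  have hbc : ((1 / b : ℝ) : ℂ) ≠ 0 := by
    have : (1 / b : ℝ) ≠ 0 := by positivity
    exact_mod_cast this
  have hgd : Differentiable ℂ g := by rw [hg]; fun_prop
  have hgn : ∀ z, ‖g z‖ = ‖F (C + z)‖ / b := by
    intro z
    simp only [hg]
    rw [norm_mul, Complex.norm_real, Real.norm_of_nonneg (by positivity)]
    ring
  have hg0 : g 0 ≠ 0 := by
    simp only [hg]
    rw [add_zero]
    exact mul_ne_zero hne hbc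
  obtain ⟨Z, hZ, hJ⟩ := jensen g R hR (fun z _ => hgd.analyticAt z) hg0
  have hJle : JJ g R ≤ α + β * (C.re ^ 2 + R ^ 2 / 2) := by
    apply JJ_quad hgd hR hα hβ
    intro z hz
    rw [hgn, div_le_iff₀ hb]
    have h1 := hup (C + z) (by rw [add_sub_cancel_left]; exact hz)
    rw [Complex.add_re] at h1
    linarith
  have hlog : l ≤ Real.log ‖g 0‖ := by
    rw [Real.le_log_iff_exp_le (norm_pos_iff.2 hg0), hgn, add_zero, le_div_iff₀ hb]
    linarith
  rw [← Finset.sum_filter_add_sum_filter_not S (fun u => ‖u - C‖ ≤ R)]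
  have h1 : ∑ u ∈ S with ¬ ‖u - C‖ ≤ R, (analyticOrderNatAt F u : ℝ) * w u ≤ 0 := by
    refine Finset.sum_nonpos fun u hu => ?_
    rw [Finset.mem_filter, not_le] at hu
    exact mul_nonpos_of_nonneg_of_nonpos (Nat.cast_nonneg _) (hw' u hu.1 hu.2)
  have h2 : ∑ u ∈ S with ‖u - C‖ ≤ R, (analyticOrderNatAt F u : ℝ) * w u ≤
      ∑ u ∈ S with ‖u - C‖ ≤ R, (analyticOrderNatAt F u : ℝ) * Real.log (R / ‖u - C‖) := by
    refine Finset.sum_le_sum fun u hu => ?_
    rw [Finset.mem_filter] at hu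
    exact mul_le_mul_of_nonneg_left (hw u hu.1 hu.2) (Nat.cast_nonneg _)
  have h3 : ∑ u ∈ S with ‖u - C‖ ≤ R, (analyticOrderNatAt F u : ℝ) * Real.log (R / ‖u - C‖) ≤
      ∑ v ∈ Z, (analyticOrderNatAt g v : ℝ) * Real.log (R / ‖v‖) := by
    have e : ∑ u ∈ S with ‖u - C‖ ≤ R, (analyticOrderNatAt F u : ℝ) * Real.log (R / ‖u - C‖) =
        ∑ v ∈ (S.filter (fun u => ‖u - C‖ ≤ R)).image (fun u => u - C),
          (analyticOrderNatAt g v : ℝ) * Real.log (R / ‖v‖) := by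
      rw [Finset.sum_image (fun a _ b _ h => sub_left_injective h)]
      refine Finset.sum_congr rfl fun u _ => ?_
      rw [hg, Pool.Agent.H466.LD.order_shift hF C hbc, add_sub_cancel]
    rw [e]
    refine Finset.sum_le_sum_of_subset_of_nonneg (fun v hv => ?_) (fun v hv _ => ?_)
    · obtain ⟨u, hu, rfl⟩ := Finset.mem_image.1 hv
      rw [Finset.mem_filter] at hu
      rw [hZ]
      refine ⟨hu.2, ?_⟩
      have h4 : g (u - C) = 0 := by
        simp only [hg]
        rw [add_sub_cancel, hS u hu.1, zero_mul]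
      have := order_pos g hgd hg0 h4
      omega
    · exact mul_nonneg (Nat.cast_nonneg _) (log_div_nonneg ((hZ v).1 hv).1)
  linarith

open Pool.Agent.H466.HF Pool.Agent.H466.LD Pool.Agent.H466.HP Pool.Agent.H466.HN Pool.Agent.H466.HD
open Pool.Agent.H466.HE

lemma pf_le (s : ℝ) : pf s ≤ s ^ 2 / 4 := by
  unfold pf
  split_ifs
  · exact le_rfl
  · nlinarith [sq_nonneg (s - 1)]

/-- the kernel and the logarithm, inside of the disc -/
lemma kk_le {R ρ Δ s d : ℝ} (hΔ : 0 < Δ) (hR : 0 < R) (hs : 0 < s + ρ) (hd0 : 0 < d)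
    (hd : d ≤ (s + ρ) * Δ) (hdR : d ≤ R * Δ) : kk R ρ s ≤ Real.log (R * Δ / d) := by
  unfold kk
  apply max_le
  · apply Real.log_nonneg
    rw [one_le_div hd0]
    exact hdR
  · apply Real.log_le_log (by positivity)
    rw [div_le_div_iff₀ hs hd0]
    nlinarith

lemma kk_zero {R ρ Δ s d : ℝ} (hΔ : 0 < Δ) (hR : 0 < R) (hs : 0 < s + ρ)
    (hd : d ≤ (s + ρ) * Δ) (hdR : R * Δ < d) : kk R ρ s ≤ 0 := by
  unfold kk
  apply max_le le_rfl
  apply Real.log_nonpos (by positivity)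
  rw [div_le_one hs]
  have h1 : R * Δ < (s + ρ) * Δ := lt_of_lt_of_le hdR hd
  exact (lt_of_mul_lt_mul_right h1 hΔ.le).le

theorem jx (h : S_UH) : S_JX := by
  obtain ⟨A', K', μ0', Q', T00', hK46', hμ0', hT00', kern, hdata'⟩ := far_data
  obtain ⟨δU, Kc, hδU, hKc, hU⟩ := h
  refine ⟨7, by norm_num, ?_⟩
  intro ρ R hρ hρR hR1
  have hR : 0 < R := lt_of_lt_of_le hρ hρR
  obtain ⟨κU, hκU, hU⟩ := hU ρ hρ
  refine ⟨min κU 1, min (min δU (ρ / (9 * Kc))) 4, by positivity, by positivity, ?_⟩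
  intro κ hκ hκ0 A1 hA1
  obtain ⟨A0, T0, hA0, hT0, hU⟩ := hU κ hκ (hκ0.trans (min_le_left _ _)) A1 hA1
  have hκ1 : κ ≤ 1 := hκ0.trans (min_le_right _ _)
  refine ⟨max A0 A1, T0, hA0.trans (le_max_left _ _), hT0, ?_⟩
  intro T t μ x0 hT hTt ht2 hRg hμ hA hΔ hx0 hx1 hz S hS
  obtain ⟨z0, hz0, hlow⟩ := hz
  have hL1 : 1 ≤ Real.log T := by
    rw [Real.le_log_iff_exp_le (by linarith)]
    have := Real.exp_one_lt_d9
    linarith
  set L := Real.log T with hL
  have hL0 : 0 < L := by linarith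
  set Δ := μ * L with hΔd
  have hΔ0 : 0 < Δ := by positivity
  have hAe : μ * L ^ 2 = Δ * L := by rw [hΔd]; ring
  set A := μ * L ^ 2 with hAd
  have hA0' : 0 < A := by positivity
  have hΔμ : Δ ^ 2 = μ * A := by rw [hΔd, hAd]; ring
  have hd1 : Δ ≤ δU := hΔ.trans ((min_le_left _ _).trans (min_le_left _ _))
  have hd2 : Δ ≤ ρ / (9 * Kc) := hΔ.trans ((min_le_left _ _).trans (min_le_right _ _))
  have hd3 : Δ ≤ 4 := hΔ.trans (min_le_right _ _)
  have hAA0 : A0 ≤ A := (le_max_left _ _).trans hA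
  have hAA1 : A1 ≤ A := (le_max_right _ _).trans hA
  set c : ℂ := ((x0 * Δ : ℝ) : ℂ) + (t : ℂ) * I with hc
  have hcre : c.re = x0 * Δ := by
    rw [hc]
    simp
  have hcim : c.im = t := by
    rw [hc]
    simp
  set G := Gm T t μ with hG
  have hG0 : 0 < G := by
    have h1 : ((Δ : ℝ) : ℂ) + (t : ℂ) * I ∈ Kt t (A1 / L) 4 (1 / κ) := by
      refine ⟨?_, ?_, ?_⟩
      · have : (((Δ : ℝ) : ℂ) + (t : ℂ) * I).re = Δ := by simp
        rw [this, div_le_iff₀ hL0, ← hAe]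
        exact hAA1
      · have : (((Δ : ℝ) : ℂ) + (t : ℂ) * I).re = Δ := by simp
        rw [this]
        exact hd3
      · have e1 : (((Δ : ℝ) : ℂ) + (t : ℂ) * I).re = Δ := by simp
        have e2 : (((Δ : ℝ) : ℂ) + (t : ℂ) * I).im = t := by simp
        rw [e1, e2, sub_self, abs_zero]
        positivity
    have h2 := cone_ne (by positivity) (by rw [one_le_div hκ]; exact hκ1) hRg.cf h1
    have h3 := F_ne h2
    rw [hG]
    unfold Gm
    exact mul_pos (norm_pos_iff.2 h3) (Real.exp_pos _)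
  -- upper bound near the centre
  have hup : ∀ z : ℂ, ‖z - z0‖ ≤ R * Δ →
      ‖LL gk (-μ) z‖ ≤ G * Real.exp (5 * ρ * A + 1 / (4 * μ) * z.re ^ 2) := by
    intro z hz
    have h1 : ‖z - c‖ ≤ 2 * Δ := by
      have h2 : z - c = (z - z0) + (z0 - c) := by ring
      rw [h2]
      refine (norm_add_le _ _).trans ?_
      have h3 : R * Δ ≤ 1 * Δ := mul_le_mul_of_nonneg_right hR1 hΔ0.le
      have h4 : ρ * Δ ≤ 1 * Δ := mul_le_mul_of_nonneg_right (hρR.trans hR1) hΔ0.le
      linarith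
    have h2 : |z.re - x0 * Δ| ≤ 2 * Δ := by
      have := Complex.abs_re_le_norm (z - c)
      rw [Complex.sub_re, hcre] at this
      exact this.trans h1
    have h3 : |z.im - t| ≤ 60 * Δ := by
      have := Complex.abs_im_le_norm (z - c)
      rw [Complex.sub_im, hcim] at this
      linarith
    have hx0Δ : x0 * Δ ≤ 1 * Δ := mul_le_mul_of_nonneg_right hx1 hΔ0.le
    have hx0Δ' : 0 ≤ x0 * Δ := by positivity
    have h4 : |z.re| ≤ 3 * Δ := by
      rw [abs_le] at h2 ⊢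
      constructor <;> linarith
    have hx : 0 ≤ |z.re| := abs_nonneg _
    have h5 := hU T t μ hT hTt ht2 hRg hμ hAA0 hd1 |z.re| z.im hx h3
    have h6 : ‖LL gk (-μ) ((|z.re| : ℝ) + (z.im : ℂ) * I)‖ = ‖LL gk (-μ) z‖ := by
      rcases le_total 0 z.re with h7 | h7
      · rw [abs_of_nonneg h7, Complex.re_add_im]
      · have h8 : (((|z.re| : ℝ) : ℂ) + (z.im : ℂ) * I) = -conj z := by
          rw [abs_of_nonpos h7]
          apply Complex.ext <;> simp
        rw [h8, Flam_fe, Complex.norm_conj]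
    rw [h6] at h5
    refine h5.trans ?_
    apply mul_le_mul_of_nonneg_left _ hG0.le
    apply Real.exp_le_exp.2
    have h9 : A * pf (|z.re| / Δ) ≤ 1 / (4 * μ) * z.re ^ 2 := by
      have h10 : A * pf (|z.re| / Δ) ≤ A * ((|z.re| / Δ) ^ 2 / 4) :=
        mul_le_mul_of_nonneg_left (pf_le _) hA0'.le
      have h11 : A * ((|z.re| / Δ) ^ 2 / 4) = 1 / (4 * μ) * z.re ^ 2 := by
        rw [div_pow, sq_abs, hΔμ]
        field_simp
      linarith
    have h12 : ρ * (A + L * |z.re|) ≤ 4 * ρ * A := by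
      have h13 : L * |z.re| ≤ 3 * A := by
        have : L * |z.re| ≤ L * (3 * Δ) := mul_le_mul_of_nonneg_left h4 hL0.le
        rw [hAe]
        linarith
      have h14 : ρ * (A + L * |z.re|) ≤ ρ * (4 * A) :=
        mul_le_mul_of_nonneg_left (by linarith) hρ.le
      linarith
    have h15 : Kc * |z.re| ^ 2 ≤ ρ * A := by
      have h16 : |z.re| ^ 2 ≤ (3 * Δ) ^ 2 := pow_le_pow_left₀ hx h4 2
      have h17 : 9 * Kc * Δ ≤ ρ := by
        rw [le_div_iff₀ (by positivity)] at hd2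
        linarith
      calc Kc * |z.re| ^ 2 ≤ Kc * (3 * Δ) ^ 2 := mul_le_mul_of_nonneg_left h16 hKc.le
        _ = 9 * Kc * Δ * Δ := by ring
        _ ≤ ρ * Δ := mul_le_mul_of_nonneg_right h17 hΔ0.le
        _ ≤ ρ * (Δ * L) := by
            apply mul_le_mul_of_nonneg_left _ hρ.le
            exact le_mul_of_one_le_right hΔ0.le hL1
        _ = ρ * A := by rw [← hAe]
    linarith
  have hd : Differentiable ℂ (LL gk (-μ)) := kern.differentiable (-μ)
  have hz0ne : LL gk (-μ) z0 ≠ 0 := by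
    rw [← norm_pos_iff]
    exact lt_of_lt_of_le (by positivity) hlow
  have hRΔ : 0 < R * Δ := by positivity
  have htri : ∀ u : ℂ, ‖u - z0‖ ≤ (‖u - c‖ / Δ + ρ) * Δ := by
    intro u
    have h1 : u - z0 = (u - c) + -(z0 - c) := by ring
    have h2 : (‖u - c‖ / Δ + ρ) * Δ = ‖u - c‖ + ρ * Δ := by
      field_simp
    rw [h2, h1]
    refine (norm_add_le _ _).trans ?_
    rw [norm_neg]
    linarith
  have hsp : ∀ u : ℂ, 0 < ‖u - c‖ / Δ + ρ := fun u => by positivity
  have hfin := jen_quad hd hRΔ (α := 5 * ρ * A) (β := 1 / (4 * μ)) (b := G)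
    (l := (x0 ^ 2 / 4 - ρ) * A) (C := z0) (by positivity) (by positivity) hG0 hup hlow S
    (fun u => kk R ρ (‖u - c‖ / Δ)) hS
    (fun u hu hu2 => by
      have hne : 0 < ‖u - z0‖ := by
        rw [norm_pos_iff, sub_ne_zero]
        intro he
        apply hz0ne
        rw [← he]
        exact hS u hu
      exact kk_le hΔ0 hR (hsp u) hne (htri u) hu2)
    (fun u hu hu2 => kk_zero hΔ0 hR (hsp u) (htri u) hu2)
  refine hfin.trans ?_
  have h1 : |z0.re - x0 * Δ| ≤ ρ * Δ := by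
    have := Complex.abs_re_le_norm (z0 - c)
    rw [Complex.sub_re, hcre] at this
    exact this.trans hz0
  have h2 : z0.re ^ 2 ≤ ((x0 + ρ) * Δ) ^ 2 := by
    apply sq_le_sq'
    · rw [abs_le] at h1
      have : 0 ≤ x0 * Δ := by positivity
      linarith
    · rw [abs_le] at h1
      linarith
  have h3 : ((x0 + ρ) * Δ) ^ 2 ≤ (x0 ^ 2 + 3 * ρ) * (μ * A) := by
    rw [mul_pow, hΔμ]
    apply mul_le_mul_of_nonneg_right _ (by positivity)
    have hρ1 : ρ ≤ 1 := hρR.trans hR1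
    nlinarith
  have h4 : 1 / (4 * μ) * (z0.re ^ 2 + (R * Δ) ^ 2 / 2) ≤ (x0 ^ 2 + 3 * ρ) * A / 4 + R ^ 2 * A / 8 := by
    have h5 : 1 / (4 * μ) * (z0.re ^ 2 + (R * Δ) ^ 2 / 2) ≤
        1 / (4 * μ) * ((x0 ^ 2 + 3 * ρ) * (μ * A) + R ^ 2 * (μ * A) / 2) := by
      apply mul_le_mul_of_nonneg_left _ (by positivity)
      rw [mul_pow R, hΔμ]
      linarith
    have h6 : 1 / (4 * μ) * ((x0 ^ 2 + 3 * ρ) * (μ * A) + R ^ 2 * (μ * A) / 2) =
        (x0 ^ 2 + 3 * ρ) * A / 4 + R ^ 2 * A / 8 := by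
      field_simp
      ring
    linarith
  have h7 : 0 < ρ * A := by positivity
  nlinarith

end Pool.Agent.H249.HE
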